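import Mathlib
import Pool.Agent.R532.CfR

/-!
# The partial quotients and the digits of `π ^ π` and of the numbers `π ^ (a π + b)`

If `π ^ π` is rational or a quadratic irrational then its partial quotients are predicted by a finite
automaton with finitely many errors (a rational number has the partial quotients `0` after the end of
its continued fraction); if it is rational then so are its digits in every base. At most one of the
numbers `π ^ π`, `π ^ (π + 1)` is algebraic. Here we prove, more generally for two numbers
`π ^ (a π + b)`, `π ^ (c π + d)` with rational `a, b, c, d`, `a d ≠ b c`, that two finite automata which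
read the partial quotients (or the digits in some base) of these numbers and predict them one after
the other make together at least `log (N / ((Q + Q') log H)) / log A - C` errors on the first `N` terms,
at every scale `N`, for predictions `≤ H` and all numbers `Q`, `Q'` of states, where the number `N` of
partial quotients may be replaced by `N + log q_N` with the denominator `q_N` of the `N`-th convergent.
More generally the expansions of these two numbers cannot both be cut into few simple blocks.

The number `π` is algebraic over the field generated by the two numbers, and it has a transcendence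
measure of polynomial type. So a large scale cannot be good for both numbers (`Pool.Agent.R356`), while
a scale within a long simple block is good (`Pool.Agent.R532.Cf5`).
-/

set_option autoImplicit false

namespace Pool.Agent.Results.MP_4c2ad3_nt.JointContinuedFractions

open Pool.Agent.R532.CfR (CutBound PredictorBound)

lemma joint (a b c d : ℚ) (h : a * d ≠ b * c) :
    Pool.Agent.R356.JointR (Real.pi ^ (a * Real.pi + b)) (Real.pi ^ (c * Real.pi + d)) := by
  have h1 := Pool.Agent.R532.CfR.joint_rpow Real.pi (Or.inr (Or.inl rfl)) (Real.pi ^ Real.pi)
    (Real.rpow_pos_of_pos Real.pi_pos _) a b c d h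
  have h2 : ∀ p q : ℝ, (Real.pi ^ Real.pi) ^ p * Real.pi ^ q = Real.pi ^ (p * Real.pi + q) := by
    intro p q
    rw [← Real.rpow_mul Real.pi_pos.le, ← Real.rpow_add Real.pi_pos]
    congr 1
    ring
  rwa [h2, h2] at h1

/-- **(1)** For rational `a, b, c, d` with `a d ≠ b c` and every `r` there is `A ≥ 1` such that: if the
first `N` terms of an expansion of `π ^ (a π + b)` (partial quotients, or digits in some base) are cut
by omitting `|E|` terms into simple blocks of cost `≤ K`, and the first `N'` terms of an expansion of
`π ^ (c π + d)` are cut by omitting `|E'|` terms into simple blocks of cost `≤ K'`, then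
`min (S, S') ≤ A^(|E|+|E'|+1) (K + K' + 1)` for the sizes `S`, `S'` of the two initial segments
(`N log b` for digits, `N + log q_N` for partial quotients).

**(2)** For the same numbers there is `A ≥ 1` such that for all predictors with `Q` and `Q'` states
the numbers of errors `ε` on the first `N` terms of an expansion of `π ^ (a π + b)` and `ε'` on the
first `N'` terms of an expansion of `π ^ (c π + d)` satisfy `min (S, S') ≤ A^(ε+ε'+1) (c + c')`, where
`c` is `(Q + 1) log b` for digits and `(Q + 1) log (H + 2)` for partial quotients, with a bound `H` for
the predictions; for instance for `π ^ π` and `π ^ (π + 1)` (third part). -/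
theorem result :
    (∀ a b c d : ℚ, a * d ≠ b * c → ∀ r : ℕ, ∃ A : ℝ, 1 ≤ A ∧
      CutBound A r (Real.pi ^ (a * Real.pi + b)) (Real.pi ^ (c * Real.pi + d))) ∧
    (∀ a b c d : ℚ, a * d ≠ b * c → ∃ A : ℝ, 1 ≤ A ∧
      PredictorBound A (Real.pi ^ (a * Real.pi + b)) (Real.pi ^ (c * Real.pi + d))) ∧
    (∃ A : ℝ, 1 ≤ A ∧ PredictorBound A (Real.pi ^ Real.pi) (Real.pi ^ (Real.pi + 1))) := by
  refine ⟨fun a b c d h r => Pool.Agent.R532.CfR.cutBound _ _ (joint a b c d h) r,
    fun a b c d h => Pool.Agent.R532.CfR.predictorBound _ _ (joint a b c d h), ?_⟩
  have h1 := joint 1 0 1 1 (by norm_num)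
  have e1 : ((1 : ℚ) : ℝ) * Real.pi + ((0 : ℚ) : ℝ) = Real.pi := by simp
  have e2 : ((1 : ℚ) : ℝ) * Real.pi + ((1 : ℚ) : ℝ) = Real.pi + 1 := by simp
  rw [e1, e2] at h1
  exact Pool.Agent.R532.CfR.predictorBound _ _ h1

end Pool.Agent.Results.MP_4c2ad3_nt.JointContinuedFractions
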