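import Pool.Agent.R347.LW.Dich

/-!
# Powers of `π` with explicit transcendental exponents

Let `q_0, q_1, …` be a sequence of integers `≥ 2`, and let `tower h` be the `h`-fold iterate of
`n ↦ 2 ^ n`. A complex number is *approximable* if, for some `h` and every `κ`, for all large `k` it has
an algebraic approximation of degree at most `tower h (q_k)`, with a polynomial over `ℤ` with coefficients
of absolute value at most `tower h (q_k)`, and with an error of at most `1 / tower κ (q_k)`. A real number
is *rationally approximable* if the approximations can be chosen in `ℚ`, with denominators at most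
`tower h (q_k)`. The approximable numbers form an algebraically closed field `K`, the rationally approximable numbers
form a field `R`, and `R ⊆ K`.

**Theorem.** (1) For every complex number `l` either `exp (x l)` is in `K` for all `x` in `R`, or
`exp (x_1 l), …, exp (x_n l)` are algebraically independent over `K` for all `x_1, …, x_n` in `R` which are linearly
independent over `ℚ`.

(2) If `x_1, …, x_n` in `R` are linearly independent over `ℚ`, then `π ^ x_1, …, π ^ x_n` are algebraically independent
over `K`.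

(3) For every real number `s`, for example `s = π`, there is at most one `x` in `R` for which `π ^ (s + x)` is in `K`. If
`x_1, …, x_n` in `R` are linearly independent over `ℚ`, the field `K(π ^ s, π ^ (s + x_1), …, π ^ (s + x_n))` has
transcendence degree at least `n` over `K`.

(4) Either `(π ^ π) ^ x` is in `K` for all `x` in `R`, or `(π ^ π) ^ x_1, …, (π ^ π) ^ x_n` are algebraically independent
over `K` for all `x_1, …, x_n` in `R` which are linearly independent over `ℚ`.

(5) If `π ^ π` is in `K`, for example if it is rational, then `π ^ (y_1 π + x_1), …, π ^ (y_n π + x_n)` are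
algebraically independent over `K` for all `y_i`, `x_i` in `R` for which `x_1, …, x_n` are linearly independent over `ℚ`.

For the explicit sequence `q_k = 2 ^ e_k`, `e_0 = 1`, `e_(k + 1) = tower (k + 2) (e_k)` all the sums of
numbers `1 / q_k` over arbitrary sets of `k` are in `R`, they are pairwise different, and `K` has transcendence
degree the cardinality of the continuum.

The proof of (1): if the numbers are dependent, then `exp l` is a zero of a generalized polynomial `∑ c_j X ^ η_j` with
coefficients in `K` and exponents in `R`; approximating the coefficients and the exponents one gets algebraic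
approximations of `exp l`. For (2) one uses that `π` is not in `K`, a consequence of the theorem of Lindemann and
Weierstrass over `K` (`MP_9cd479_nt.PowerClosedFields`).
-/

set_option autoImplicit false

namespace Pool.Agent.Results.MP_4c2ad3_nt.PowersOfPi

/-- The `h`-fold iterate of `n ↦ 2 ^ n`. -/
def tower : ℕ → ℕ → ℕ
  | 0, q => q
  | h + 1, q => 2 ^ tower h q

/-- `a` is a zero of a nonzero polynomial over `ℤ` of degree at most `N` whose coefficients have absolute
value at most `N`. -/
def Bounded (N : ℕ) (a : ℂ) : Prop :=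
  ∃ P : Polynomial ℤ, P ≠ 0 ∧ P.natDegree ≤ N ∧ (∀ n, |P.coeff n| ≤ N) ∧ Polynomial.aeval a P = 0

/-- For some `h` and every `κ`, for all large `k` the number `z` has an algebraic approximation of
complexity at most `tower h (q k)` and with an error of at most `1 / tower κ (q k)`. -/
def Approximable (q : ℕ → ℕ) (z : ℂ) : Prop :=
  ∃ h : ℕ, ∀ κ : ℕ, ∃ k₀ : ℕ, ∀ k ≥ k₀, ∃ a : ℂ, Bounded (tower h (q k)) a ∧
    ‖z - a‖ ≤ ((tower κ (q k) : ℕ) : ℝ)⁻¹

/-- For some `h` and every `κ`, for all large `k` the real number `x` has a rational approximation with a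
denominator at most `tower h (q k)` and with an error of at most `1 / tower κ (q k)`. -/
def RationallyApproximable (q : ℕ → ℕ) (x : ℝ) : Prop :=
  ∃ h : ℕ, ∀ κ : ℕ, ∃ k₀ : ℕ, ∀ k ≥ k₀, ∃ (u : ℤ) (v : ℕ), 1 ≤ v ∧ v ≤ tower h (q k) ∧
    |x - u / v| ≤ ((tower κ (q k) : ℕ) : ℝ)⁻¹

/-- The exponents `e_0 = 1`, `e_(k + 1) = tower (k + 2) (e_k)`. -/
def e : ℕ → ℕ
  | 0 => 1
  | k + 1 => tower (k + 2) (e k)

/-- The explicit sequence `q_k = 2 ^ e_k`. -/
def q₀ (k : ℕ) : ℕ := 2 ^ e k

/-- The sum of the numbers `1 / q_k` over the elements `k` of the set `A`. -/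
noncomputable def number (A : Set ℕ) : ℝ :=
  ∑' k, Set.indicator A (fun k => 1 / (q₀ k : ℝ)) k

/-- the complex number `π ^ s` for a real number `s` -/
noncomputable def piPow (s : ℝ) : ℂ := ((Real.pi ^ s : ℝ) : ℂ)

/-- the statements (1), …, (5) for the fields `K` and `R` -/
def Good (K : IntermediateField ℚ ℂ) (R : IntermediateField ℚ ℝ) : Prop :=
  (∀ l : ℂ, (∀ x ∈ R, Complex.exp (x * l) ∈ K) ∨
    ∀ (n : ℕ) (x : Fin n → R), LinearIndependent ℚ x →
      AlgebraicIndependent K (fun i => Complex.exp (((x i : ℝ) : ℂ) * l))) ∧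
  (∀ (n : ℕ) (x : Fin n → R), LinearIndependent ℚ x → AlgebraicIndependent K (fun i => piPow (x i))) ∧
  (∀ s : ℝ, (∀ x ∈ R, ∀ y ∈ R, piPow (s + x) ∈ K → piPow (s + y) ∈ K → x = y) ∧
    ∀ (n : ℕ) (x : Fin n → R), LinearIndependent ℚ x →
      (n : Cardinal) ≤ Algebra.trdeg K (IntermediateField.adjoin K
        ({piPow s} ∪ Set.range fun i => piPow (s + x i)))) ∧
  ((∀ x ∈ R, piPow (x * Real.pi) ∈ K) ∨
    ∀ (n : ℕ) (x : Fin n → R), LinearIndependent ℚ x →
      AlgebraicIndependent K (fun i => piPow (x i * Real.pi))) ∧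
  (piPow Real.pi ∈ K → ∀ (n : ℕ) (y x : Fin n → R), LinearIndependent ℚ x →
    AlgebraicIndependent K (fun i => piPow (y i * Real.pi + x i)))

theorem tower_eq : tower = Pool.Agent.R347.LW.tow := by
  funext h q
  induction h with
  | zero => rfl
  | succ h ih => rw [tower, Pool.Agent.R347.LW.tow, ih]

theorem approximable_iff (q : ℕ → ℕ) (z : ℂ) : Approximable q z ↔ Pool.Agent.R347.LW.Appr q z := by
  unfold Approximable Pool.Agent.R347.LW.Appr
  rw [tower_eq]
  rfl

theorem rationallyApproximable_iff (q : ℕ → ℕ) (x : ℝ) :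
    RationallyApproximable q x ↔ Pool.Agent.R347.LW.RAppr q x := by
  unfold RationallyApproximable Pool.Agent.R347.LW.RAppr
  rw [tower_eq]

theorem e_eq : e = Pool.Agent.R347.LW.eT := by
  funext k
  induction k with
  | zero => rfl
  | succ k ih => rw [e, Pool.Agent.R347.LW.eT, ih, tower_eq]

theorem q₀_eq : q₀ = Pool.Agent.R347.LW.qT := by
  funext k
  rw [q₀, Pool.Agent.R347.LW.qT, e_eq]

theorem number_eq : number = Pool.Agent.R347.LW.xiT := by
  funext A
  rw [number, Pool.Agent.R347.LW.xiT]
  refine tsum_congr fun k => ?_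
  have h1 : 1 / (q₀ k : ℝ) = (1 / 2 : ℝ) ^ Pool.Agent.R347.LW.eT k := by
    rw [q₀, e_eq]
    push_cast
    rw [one_div, one_div, inv_pow]
  by_cases h : k ∈ A
  · rw [Set.indicator_of_mem h, Pool.Agent.R347.LW.trT_of_mem h, h1]
  · rw [Set.indicator_of_notMem h, Pool.Agent.R347.LW.trT_of_notMem h]

theorem piPow_exp (s : ℝ) : piPow s = Complex.exp (s * (Real.log Real.pi : ℝ)) := by
  rw [piPow, Real.rpow_def_of_pos Real.pi_pos, Complex.ofReal_exp]
  congr 1
  push_cast
  ring

theorem piPow_add (s t : ℝ) : piPow (s + t) = piPow s * piPow t := by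
  rw [piPow_exp, piPow_exp, piPow_exp, ← Complex.exp_add]
  congr 1
  push_cast
  ring

theorem piPow_ne (s : ℝ) : piPow s ≠ 0 := by
  rw [piPow_exp]
  exact Complex.exp_ne_zero _

theorem piPow_neg (s : ℝ) : piPow (-s) = (piPow s)⁻¹ := by
  rw [piPow_exp, piPow_exp, ← Complex.exp_neg]
  congr 1
  push_cast
  ring

section

open Pool.Agent.R347.LW

variable {q : ℕ → ℕ} (hq : ∀ k, 2 ≤ q k)

include hq

theorem dichotomy (l : ℂ) : (∀ x ∈ UR hq, Complex.exp (x * l) ∈ UK hq) ∨
    ∀ (n : ℕ) (x : Fin n → UR hq), LinearIndependent ℚ x →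
      AlgebraicIndependent (UK hq) (fun i => Complex.exp (((x i : ℝ) : ℂ) * l)) := by
  by_cases hl : Appr q (Complex.exp l)
  · left
    intro x hx
    exact Appr.rpow hq hl hx
  · right
    intro n x hx
    exact dich hq l hl n x hx

theorem indep (n : ℕ) (x : Fin n → UR hq) (hx : LinearIndependent ℚ x) :
    AlgebraicIndependent (UK hq) (fun i => piPow (x i)) := by
  have h1 := dich hq ((Real.log Real.pi : ℝ) : ℂ) (by
    rw [← Complex.ofReal_exp, Real.exp_log Real.pi_pos]
    exact pi_notMem hq) n x hx
  convert h1 using 2 with i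
  exact piPow_exp _

theorem trans {x : ℝ} (hx : x ∈ UR hq) (h : piPow x ∈ UK hq) : x = 0 := by
  by_contra h0
  have h1 := indep hq 1 (fun _ => ⟨x, hx⟩) (by
    rw [linearIndependent_unique_iff]
    intro h2
    exact h0 (congrArg Subtype.val h2))
  exact h1.transcendental 0 (isAlgebraic_algebraMap (⟨_, h⟩ : UK hq))

theorem trdeg_ge {n : ℕ} {z : Fin n → ℂ} (hz : AlgebraicIndependent (UK hq) z) (S : Set ℂ)
    (h : ∀ i, z i ∈ IntermediateField.adjoin (UK hq) S) :
    (n : Cardinal) ≤ Algebra.trdeg (UK hq) (IntermediateField.adjoin (UK hq) S) := by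
  let f : Fin n → IntermediateField.adjoin (UK hq) S := fun i => ⟨z i, h i⟩
  have hf : AlgebraicIndependent (UK hq) f := by
    have h1 : Function.Injective (IntermediateField.adjoin (UK hq) S).val := (IntermediateField.adjoin (UK hq) S).val.injective
    exact ((IntermediateField.adjoin (UK hq) S).val.algebraicIndependent_iff h1).1 hz
  have h4 := hf.cardinalMk_le_trdeg
  simpa using h4

theorem unit_mul {ι : Type*} {z c : ι → ℂ} (hz : AlgebraicIndependent (UK hq) z) (hc : ∀ i, c i ∈ UK hq) (hc0 : ∀ i, c i ≠ 0) :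
    AlgebraicIndependent (UK hq) (fun i => c i * z i) := by
  classical
  let φ : MvPolynomial ι (UK hq) →ₐ[UK hq] MvPolynomial ι (UK hq) :=
    MvPolynomial.aeval fun i => MvPolynomial.C (⟨c i, hc i⟩ : UK hq) * MvPolynomial.X i
  let ψ : MvPolynomial ι (UK hq) →ₐ[UK hq] MvPolynomial ι (UK hq) :=
    MvPolynomial.aeval fun i => MvPolynomial.C (⟨c i, hc i⟩ : UK hq)⁻¹ * MvPolynomial.X i
  have hψφ : ψ.comp φ = AlgHom.id _ _ := by
    apply MvPolynomial.algHom_ext
    intro i
    have h0 : (⟨c i, hc i⟩ : UK hq) ≠ 0 := fun h => hc0 i (congrArg Subtype.val h)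
    simp only [φ, ψ, AlgHom.comp_apply, MvPolynomial.aeval_X, map_mul, AlgHom.id_apply, MvPolynomial.algHom_C,
      MvPolynomial.algebraMap_eq]
    rw [← mul_assoc, ← map_mul, mul_inv_cancel₀ h0, map_one, one_mul]
  have hφ : Function.Injective φ := fun a b h => by
    have h1 := congrArg ψ h
    have h2 : ∀ a, ψ (φ a) = a := fun a => by
      have := congrArg (fun f : MvPolynomial ι (UK hq) →ₐ[UK hq] MvPolynomial ι (UK hq) => f a) hψφ
      exact this
    rwa [h2, h2] at h1
  rw [AlgebraicIndependent] at hz ⊢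
  have h1 : MvPolynomial.aeval (R := UK hq) (fun i => c i * z i) = (MvPolynomial.aeval (R := UK hq) z).comp φ := by
    apply MvPolynomial.algHom_ext
    intro i
    simp only [φ, AlgHom.comp_apply, MvPolynomial.aeval_X, map_mul, MvPolynomial.algHom_C]
    rfl
  rw [h1]
  exact hz.comp hφ

theorem good : Good (UK hq) (UR hq) := by
  refine ⟨dichotomy hq, indep hq, fun s => ⟨fun x hx y hy h1 h2 => ?_, fun n x hx => ?_⟩, ?_, fun h n y x hx => ?_⟩
  · have h3 : piPow (x - y) ∈ UK hq := by
      have h4 : piPow (x - y) = piPow (s + x) * (piPow (s + y))⁻¹ := by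
        rw [← piPow_neg, ← piPow_add]
        congr 1
        ring
      rw [h4]
      exact mul_mem h1 (inv_mem h2)
    have h5 := trans hq (sub_mem hx hy) h3
    linarith
  · refine trdeg_ge hq (indep hq n x hx) _ fun i => ?_
    have h4 : piPow (x i) = piPow (s + x i) * (piPow s)⁻¹ := by
      rw [← piPow_neg, ← piPow_add]
      congr 1
      ring
    rw [h4]
    exact mul_mem (IntermediateField.subset_adjoin _ _ (Or.inr ⟨i, rfl⟩))
      (inv_mem (IntermediateField.subset_adjoin _ _ (Or.inl rfl)))
  · rcases dichotomy hq ((Real.pi * Real.log Real.pi : ℝ) : ℂ) with h | h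
    · left
      intro x hx
      have h1 := h x hx
      rw [piPow_exp]
      convert h1 using 2
      push_cast
      ring
    · right
      intro n x hx
      have h1 := h n x hx
      convert h1 using 2 with i
      rw [piPow_exp]
      congr 1
      push_cast
      ring
  · have h1 : ∀ i, piPow (y i * Real.pi) ∈ UK hq := by
      intro i
      have h2 : Appr q (Complex.exp ((Real.pi * Real.log Real.pi : ℝ) : ℂ)) := by
        have h3 : piPow Real.pi = Complex.exp ((Real.pi * Real.log Real.pi : ℝ) : ℂ) := by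
          rw [piPow_exp]
          congr 1
          push_cast
          ring
        rw [← h3]
        exact h
      have h4 := Appr.rpow hq h2 (y i).2
      have h5 : piPow (y i * Real.pi) = Complex.exp (((y i : ℝ) : ℂ) * ((Real.pi * Real.log Real.pi : ℝ) : ℂ)) := by
        rw [piPow_exp]
        congr 1
        push_cast
        ring
      rw [h5]
      exact h4
    have h6 := unit_mul hq (indep hq n x hx) h1 (fun i => piPow_ne _)
    convert h6 using 2 with i
    exact piPow_add _ _

end

/-- **Main result.** -/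
theorem result :
    (∀ q : ℕ → ℕ, (∀ k, 2 ≤ q k) → ∃ (K : IntermediateField ℚ ℂ) (R : IntermediateField ℚ ℝ),
      (∀ z, z ∈ K ↔ Approximable q z) ∧ (∀ x, x ∈ R ↔ RationallyApproximable q x) ∧ IsAlgClosed K ∧
      (∀ x ∈ R, (x : ℂ) ∈ K) ∧ Good K R) ∧
    (∀ k, 2 ≤ q₀ k) ∧ (∀ A : Set ℕ, RationallyApproximable q₀ (number A)) ∧
    Function.Injective number ∧
    (∀ K : IntermediateField ℚ ℂ, (∀ z, z ∈ K ↔ Approximable q₀ z) →
      Algebra.trdeg ℚ K = Cardinal.continuum) := by
  refine ⟨fun q hq => ⟨Pool.Agent.R347.LW.UK hq, Pool.Agent.R347.LW.UR hq, fun z => (approximable_iff q z).symm,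
    fun x => (rationallyApproximable_iff q x).symm, Pool.Agent.R347.LW.UK_closed hq, fun x hx => ?_, good hq⟩,
    ?_, fun A => ?_, ?_, fun K hK => ?_⟩
  · exact Pool.Agent.R347.LW.RAppr.appr hq hx
  · intro k
    rw [q₀_eq]
    exact Pool.Agent.R347.LW.two_le_qT k
  · rw [rationallyApproximable_iff, q₀_eq, number_eq]
    exact Pool.Agent.R347.LW.xiT_rappr A
  · rw [number_eq]
    exact Pool.Agent.R347.LW.xiT_injective
  · have h1 : K = Pool.Agent.R347.LW.UK Pool.Agent.R347.LW.two_le_qT := by
      ext z
      rw [hK, approximable_iff, q₀_eq]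
      rfl
    rw [h1]
    exact Pool.Agent.R347.LW.UK_trdeg _

end Pool.Agent.Results.MP_4c2ad3_nt.PowersOfPi
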