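import Pool.Agent.HP778.Main

/-!
# The numbers `(n π) ^ (β π)` and `n ^ x π ^ y` with exponents in `ℚ̄(π)` or `ℚ̄(π, e)`

The number `π ^ π` is the member `n = 1`, `β = 1` of the family `(n π) ^ (β π)`; another member is
`(n π) ^ (n π)`. Part (1): all members of this family are transcendental, for all algebraic `β ≠ 0`
simultaneously, for all but `log₂ N + 1` of the integers `n ≤ N`. Parts (2)-(4): the same for all
numbers `n ^ x π ^ y` whose exponents `x`, `y` are polynomials or rational functions of bounded degree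
in `π` (or in `π` and `e`), `x` not algebraic, up to a power of `log N`.

The proof. Suppose that `x_i log n_i + y_i log π` is a linear form `λ_i` in `1` and logarithms of
algebraic numbers, `x_i = P_i / Q_i`, `y_i = S_i / Q_i`, for `i = 1, ..., m`. Among the combinations of
the relations `P_i log n_i + S_i log π = Q_i λ_i` with coefficients in the space `B` of the polynomials
of degree less than `D` those which do not contain `log π` are linear relations between elements of the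
space of polynomials of degree less than `2 D`, whose coefficients are linear forms in logarithms. The
hyperplane case of the linear subgroup theorem of Waldschmidt and Roy (starting files) bounds the
number of linearly independent ones. The relations which vanish identically form a space of dimension
at most `m dim B / 2` (`Pool.Agent.HP778.Half`).
-/

set_option autoImplicit false

namespace Pool.Agent.Results.MP_4c2ad3_nt.PowersTimesPowersOfPi

open Module Finset
open Pool.Agent.HP778 hiding IsQuot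

/-- The linear combinations, with algebraic coefficients, of `1` and of logarithms of algebraic
numbers. -/
noncomputable def LogForms : Submodule (algebraicClosure ℚ ℂ) ℂ :=
  Submodule.span (algebraicClosure ℚ ℂ) ({1} ∪ {z : ℂ | IsAlgebraic ℚ (Complex.exp z)})

/-- The numbers `e ^ z` with `z` in `LogForms`, i.e. the numbers `e ^ γ α_1 ^ β_1 ⋯ α_k ^ β_k` with
algebraic `γ`, `α_i ≠ 0`, `β_i`. -/
def Prods : Set ℂ := {x | ∃ z ∈ LogForms, Complex.exp z = x}

open Classical in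
/-- The integers `n` between `1` and `N` such that `(n π) ^ (β π)` is in `Prods` for SOME algebraic
number `β ≠ 0`. -/
noncomputable def badBases (N : ℕ) : Finset ℕ :=
  (Finset.Icc 1 N).filter fun n => ∃ β : ℂ, IsAlgebraic ℚ β ∧ β ≠ 0 ∧
    (((n * Real.pi : ℝ) : ℝ) : ℂ) ^ (β * Real.pi) ∈ Prods

open Classical in
/-- The integers `n` between `1` and `N` such that `n ^ x π ^ y` is in `Prods` for SOME pair `(x, y)`
of the set `E`. -/
noncomputable def bad (E : Set (ℂ × ℂ)) (N : ℕ) : Finset ℕ :=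
  (Finset.Icc 1 N).filter fun n => ∃ xy ∈ E, (n : ℂ) ^ xy.1 * ((Real.pi : ℝ) : ℂ) ^ xy.2 ∈ Prods

/-- the pairs `(P(π), S(π))` of values of polynomials of degree at most `D` with algebraic
coefficients, `P` nonconstant -/
def polyPairs (D : ℕ) : Set (ℂ × ℂ) :=
  {xy | ∃ P S : Polynomial (algebraicClosure ℚ ℂ), 1 ≤ P.natDegree ∧ P.natDegree ≤ D ∧
    S.natDegree ≤ D ∧ xy = (Polynomial.aeval ((Real.pi : ℝ) : ℂ) P,
      Polynomial.aeval ((Real.pi : ℝ) : ℂ) S)}

/-- the pairs `(P(t) / Q(t), S(t) / Q(t))` with polynomials `P`, `Q`, `S` with algebraic coefficients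
and of degree at most `D` in each of the `r` variables, such that `P(t) / Q(t)` is transcendental -/
def ratPairs {r : ℕ} (t : Fin r → ℂ) (D : ℕ) : Set (ℂ × ℂ) :=
  {xy | Transcendental ℚ xy.1 ∧ ∃ P Q S : MvPolynomial (Fin r) (algebraicClosure ℚ ℂ),
    (∀ i, P.degreeOf i ≤ D) ∧ (∀ i, Q.degreeOf i ≤ D) ∧ (∀ i, S.degreeOf i ≤ D) ∧
    MvPolynomial.aeval t Q ≠ 0 ∧
    xy.1 = MvPolynomial.aeval t P / MvPolynomial.aeval t Q ∧
    xy.2 = MvPolynomial.aeval t S / MvPolynomial.aeval t Q}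

theorem pi_tr : Transcendental ℚ ((Real.pi : ℝ) : ℂ) :=
  ofReal_transcendental Pool.Agent.H340R2.LW.transcendental_pi

theorem ofReal_cpow' {a : ℝ} (ha : 0 < a) (x : ℂ) :
    (a : ℂ) ^ x = Complex.exp (x * ((Real.log a : ℝ) : ℂ)) := by
  rw [Complex.cpow_def_of_ne_zero (by exact_mod_cast ha.ne'), Complex.ofReal_log ha.le, mul_comm]

theorem mem_of_bad {n : ℕ} (hn : 1 ≤ n) {x y : ℂ}
    (h : (n : ℂ) ^ x * ((Real.pi : ℝ) : ℂ) ^ y ∈ Prods) :
    x * ((Real.log n : ℝ) : ℂ) + y * ((Real.log Real.pi : ℝ) : ℂ) ∈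
      Pool.Agent.H301R2.SSE.Lt := by
  obtain ⟨z, hz, hze⟩ := h
  rw [natCast_cpow hn, ofReal_cpow' Real.pi_pos, ← Complex.exp_add] at hze
  exact mem_of_exp hz hze.symm

theorem bad_le {E : Set (ℂ × ℂ)} {N r : ℕ}
    (h : ∀ (m : ℕ) (l : Fin m → ℂ), (∀ i, IsAlgebraic ℚ (Complex.exp (l i))) →
      LinearIndependent ℚ l → (∀ i, ∃ xy ∈ E,
        xy.1 * l i + xy.2 * ((Real.log Real.pi : ℝ) : ℂ) ∈ Pool.Agent.H301R2.SSE.Lt) → m ≤ r) :
    (bad E N).card ≤ (Nat.log 2 N + 1) ^ r := by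
  classical
  have h1 := count_of (N := N) (r := r)
    (fun n => ∃ xy ∈ E, (n : ℂ) ^ xy.1 * ((Real.pi : ℝ) : ℂ) ^ xy.2 ∈ Prods) (by
    intro m n hn halg hli
    refine h m _ halg hli fun i => ?_
    obtain ⟨x, hx, hxp⟩ := (hn i).2
    exact ⟨x, hx, mem_of_bad (hn i).1 hxp⟩)
  refine le_trans (le_of_eq ?_) h1
  unfold bad
  congr

theorem rat_le {r : ℕ} (t : Fin r → ℂ) {D : ℕ} (hD : 1 ≤ D) (j : Fin r)
    (htr : Transcendental ℚ (t j)) (htL : t j ∈ Pool.Agent.H301R2.SSE.Lt) (N : ℕ) :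
    (bad (ratPairs t D) N).card ≤ (Nat.log 2 N + 1) ^ (2 * (4 * D) ^ r - 1) := by
  refine bad_le fun m l halg hli h => ?_
  refine (logs_ratio' t ((Real.log Real.pi : ℝ) : ℂ) hD j htr htL l halg hli fun i => ?_).1
  obtain ⟨xy, ⟨hx, P, Q, S, hP, hQ, hS, hQ0, h1, h2⟩, hxl⟩ := h i
  exact ⟨xy.1, xy.2, ⟨P, Q, S, hP, hQ, hS, hQ0, h1, h2⟩, hx, hxl⟩

/-- **Main result.** Let `D ≥ 1`.

(1) For all but at most `log₂ N + 1` of the integers `n` between `1` and `N` the numbers
`(n π) ^ (β π)` are not in `Prods` (in particular transcendental), for all algebraic `β ≠ 0`. For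
`n = 1`, `β = 1` this is `π ^ π`.

(2) For all but at most `(log₂ N + 1) ^ (4 D - 1)` of the `n` all the numbers `n ^ P(π) π ^ S(π)`, with
polynomials `P`, `S` of degree at most `D` with algebraic coefficients, `P` nonconstant, are not in
`Prods`.

(3) The same for all numbers `n ^ x π ^ y`, `x = P(π) / Q(π)` transcendental, `y = S(π) / Q(π)`, with
polynomials of degree at most `D`, and at most `(log₂ N + 1) ^ (8 D - 1)` exceptions; (4) for
`x = P(π, e) / Q(π, e)` transcendental, `y = S(π, e) / Q(π, e)`, with polynomials of degree at most `D`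
in each variable, and at most `(log₂ N + 1) ^ (32 D ^ 2 - 1)` exceptions.

(5) All nonzero algebraic numbers are in `Prods`. -/
theorem result :
    (∀ N : ℕ, (badBases N).card ≤ Nat.log 2 N + 1) ∧
    (∀ D N : ℕ, 1 ≤ D → (bad (polyPairs D) N).card ≤ (Nat.log 2 N + 1) ^ (4 * D - 1)) ∧
    (∀ D N : ℕ, 1 ≤ D →
      (bad (ratPairs ![((Real.pi : ℝ) : ℂ)] D) N).card ≤ (Nat.log 2 N + 1) ^ (8 * D - 1) ∧
      (bad (ratPairs ![((Real.pi : ℝ) : ℂ), ((Real.exp 1 : ℝ) : ℂ)] D) N).card ≤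
        (Nat.log 2 N + 1) ^ (32 * D ^ 2 - 1)) ∧
    (∀ x : ℂ, x ≠ 0 → IsAlgebraic ℚ x → x ∈ Prods) := by
  classical
  refine ⟨fun N => ?_, fun D N hD => bad_le fun m l halg hli h => ?_,
    fun D N hD => ⟨?_, ?_⟩, fun x hx0 hx => ?_⟩
  · refine le_trans (Finset.card_le_card ?_)
      ((count_coset pi_tr (Real.pi * ((Real.log Real.pi : ℝ) : ℂ)) N).2 pi_mem_Lt)
    intro n hn
    unfold badBases at hn
    rw [Finset.mem_filter] at hn ⊢
    obtain ⟨hnI, β, hβ, hβ0, z, hz, hze⟩ := hn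
    refine ⟨hnI, ?_⟩
    have hn1 : 1 ≤ n := (Finset.mem_Icc.mp hnI).1
    have hnpos : (0 : ℝ) < n := by exact_mod_cast hn1
    rw [ofReal_cpow' (mul_pos hnpos Real.pi_pos)] at hze
    have h1 := mem_of_exp hz hze.symm
    have h2 := Pool.Agent.H301R2.SSE.Lt_mul hβ.inv h1
    have h3 : ((Real.pi : ℝ) : ℂ) * ((Real.log n : ℝ) : ℂ) +
        Real.pi * ((Real.log Real.pi : ℝ) : ℂ) =
        β⁻¹ * (β * Real.pi * ((Real.log (n * Real.pi) : ℝ) : ℂ)) := by
      rw [Real.log_mul hnpos.ne' Real.pi_pos.ne']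
      push_cast
      field_simp
    rw [h3]
    exact h2
  · refine logs_polyz' pi_tr pi_mem_Lt ((Real.log Real.pi : ℝ) : ℂ) hD l halg hli fun i => ?_
    obtain ⟨x, ⟨P, S, h1, h2, h3, rfl⟩, hx⟩ := h i
    exact ⟨P, S, h1, h2, h3, hx⟩
  · have h := rat_le ![((Real.pi : ℝ) : ℂ)] hD 0 pi_tr pi_mem_Lt N
    have e : 2 * (4 * D) ^ 1 - 1 = 8 * D - 1 := by rw [pow_one]; omega
    exact h.trans (le_of_eq (congrArg (fun k => (Nat.log 2 N + 1) ^ k) e))
  · have h := rat_le ![((Real.pi : ℝ) : ℂ), ((Real.exp 1 : ℝ) : ℂ)] hD 0 pi_tr pi_mem_Lt N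
    have e : 2 * (4 * D) ^ 2 - 1 = 32 * D ^ 2 - 1 := by
      have : (4 * D) ^ 2 = 16 * D ^ 2 := by ring
      omega
    exact h.trans (le_of_eq (congrArg (fun k => (Nat.log 2 N + 1) ^ k) e))
  · refine ⟨Complex.log x, ?_, Complex.exp_log hx0⟩
    refine Submodule.subset_span (Or.inr ?_)
    change IsAlgebraic ℚ (Complex.exp (Complex.log x))
    rwa [Complex.exp_log hx0]

end Pool.Agent.Results.MP_4c2ad3_nt.PowersTimesPowersOfPi
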