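import Pool.Agent.R105.PE.Fin

/-!
# Sums of two powers of `π` with exponents in `ℚ + ℚ π`

Let `x` be `e`, `π` or `log q` (`q > 1` rational) and let `θ` be any real number (`x = θ = π` in the
problem).  We consider all the numbers

* `x ^ (r + s θ)` with rational `(r, s) ≠ (0, 0)`, and
* `x ^ (r + s θ) + a x ^ (r' + s' θ) ≠ 0` with rational `r, s, r', s'`, `r s' ≠ r' s`, and a real
  algebraic number `a ≠ 0`.

At most one of these numbers is algebraic, up to the obvious dependences: powers of one number of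
the first kind, and, for the second kind, exponents `P = (r, s)`, `Q = (r', s')` for which the
triangles `0, P, Q` are translates of each other (if `u = M + a N` then `1 / u` is
`M⁻¹ - (a / u) N M⁻¹`).  In particular, if `π ^ π` is algebraic then all the numbers
`π ^ (r + s π) + a π ^ (r' + s' π)` of the second kind are transcendental.

Two independent members have a joint transcendence measure, and the good algebraic approximations to
finitely many pairwise independent members are sparse.

Proof.  If `x` were transcendental over `ℚ(u, v)`, there would be a derivation `D` of `ℝ` with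
`D u = D v = 0` and `D x = x`.  For `t = x ^ θ` and `τ = D t / t` the binomial with the exponents `P`
and `Q` gives `det (P, Q) D τ = λ μ (λ - μ)`, `λ = P₁ + P₂ τ`, `μ = Q₁ + Q₂ τ`; two such equations
give a cubic relation for `λ / μ`, which is transcendental, and the cubic forms agree only if the
triangles are translates.  So `x` is algebraic over `ℤ[u, v]` and `Pool.Agent.R356.joint` applies.
-/

set_option autoImplicit false

namespace Pool.Agent.Results.MP_4c2ad3_nt.SumsOfTwoPowers

open Polynomial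

/-- `x` is `e`, `π` or the logarithm of a rational number greater than one -/
def Base (x : ℝ) : Prop := x = Real.exp 1 ∨ x = Real.pi ∨ ∃ q : ℚ, 1 < q ∧ x = Real.log q

/-- `x ^ (r + s θ)` -/
noncomputable def pw (x θ : ℝ) (P : ℚ × ℚ) : ℝ := x ^ ((P.1 : ℝ) + P.2 * θ)

/-- one power, or a sum of two powers with a coefficient -/
inductive Member : Type
  | mon (P : ℚ × ℚ) : Member
  | bin (P Q : ℚ × ℚ) (a : ℝ) : Member

/-- `x ^ (r + s θ)` and `x ^ (r + s θ) + a x ^ (r' + s' θ)` -/
noncomputable def val (x θ : ℝ) : Member → ℝ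
  | Member.mon P => pw x θ P
  | Member.bin P Q a => pw x θ P + a * pw x θ Q

/-- the conditions `(r, s) ≠ (0, 0)`, respectively `r s' ≠ s r'`, `a ≠ 0` algebraic, value `≠ 0` -/
def Adm (x θ : ℝ) : Member → Prop
  | Member.mon P => P ≠ 0
  | Member.bin P Q a =>
      P.1 * Q.2 - P.2 * Q.1 ≠ 0 ∧ a ≠ 0 ∧ IsAlgebraic ℚ a ∧ pw x θ P + a * pw x θ Q ≠ 0

/-- the triangles `0, P, Q` and `0, P', Q'` are translates of each other -/
def Transl (P Q P' Q' : ℚ × ℚ) : Prop :=
  ∃ w : ℚ × ℚ, ({0, P', Q'} : Set (ℚ × ℚ)) = {w, w + P, w + Q}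

/-- dependent members: two powers whose exponents have rational quotient; two sums with
translated triangles, unless the exponents are the same and the coefficients are different -/
def Dep : Member → Member → Prop
  | Member.mon P, Member.mon Q => P.1 * Q.2 - P.2 * Q.1 = 0
  | Member.bin P Q a, Member.bin P' Q' a' => Transl P Q P' Q' ∧ (P' = P → Q' = Q → a' = a)
  | _, _ => False

/-- the values of integer polynomials of bounded degree at `u` and `v` are not both smaller than a
negative power of the coefficients -/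
def Joint (u v : ℝ) : Prop :=
  ∀ D : ℕ, ∃ κ C : ℝ, 0 < κ ∧ 0 < C ∧ ∀ P Q : ℤ[X], P ≠ 0 → Q ≠ 0 → P.natDegree ≤ D →
    Q.natDegree ≤ D → ∀ H : ℝ, (∀ k, |((P.coeff k : ℤ) : ℝ)| ≤ H) →
    (∀ k, |((Q.coeff k : ℤ) : ℝ)| ≤ H) → C * H ^ (-κ) ≤ max |aeval u P| |aeval v Q|

/-- the largest absolute value of a coefficient -/
def height (P : ℤ[X]) : ℕ := P.support.sup fun i => (P.coeff i).natAbs

/-- the pairs of a member `U` of `S` and an irreducible integer polynomial `P` of degree `≤ D`, of
height `≤ X` and with `|P(val U)| ≤ (height P) ^ (-w)` -/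
def near (x θ : ℝ) (S : Finset Member) (D : ℕ) (w X : ℝ) : Set (Member × ℤ[X]) :=
  {p | p.1 ∈ S ∧ Irreducible p.2 ∧ p.2.natDegree ≤ D ∧ 0 < p.2.leadingCoeff ∧
    |aeval (val x θ p.1) p.2| ≤ (height p.2 : ℝ) ^ (-w) ∧ (height p.2 : ℝ) ≤ X}

/-- the same member in the notation of the library -/
def conv : Member → Pool.Agent.R105.PE.Mb
  | Member.mon P => Pool.Agent.R105.PE.Mb.mon P
  | Member.bin P Q a => Pool.Agent.R105.PE.Mb.bin P Q a

lemma val_conv (x θ : ℝ) (hx : 0 < x) (U : Member) :
    val x θ U = Pool.Agent.R105.PE.bval x (x ^ θ) (conv U) := by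
  rcases U with P | ⟨P, Q, a⟩
  · exact Pool.Agent.R105.PE.pw_eq x θ hx P
  · change pw x θ P + a * pw x θ Q = _
    rw [show pw x θ P = _ from Pool.Agent.R105.PE.pw_eq x θ hx P,
      show pw x θ Q = _ from Pool.Agent.R105.PE.pw_eq x θ hx Q]
    rfl

lemma adm_conv (x θ : ℝ) (hx : 0 < x) (U : Member) (h : Adm x θ U) :
    Pool.Agent.R105.PE.BAdm x (x ^ θ) (conv U) := by
  rcases U with P | ⟨P, Q, a⟩
  · exact h
  · obtain ⟨h1, h2, h3, h4⟩ := h
    refine ⟨h1, h2, h3, ?_⟩
    rw [← Pool.Agent.R105.PE.pw_eq x θ hx P, ← Pool.Agent.R105.PE.pw_eq x θ hx Q]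
    exact h4

lemma dep_conv (U V : Member) (h : Pool.Agent.R105.PE.DepS (conv U) (conv V)) : Dep U V := by
  rcases U with P | ⟨P, Q, a⟩ <;> rcases V with P' | ⟨P', Q', a'⟩
  · exact h
  · exact h
  · exact h
  · exact h

lemma joint_of (x θ : ℝ) (hx : Base x) (U V : Member) (hU : Adm x θ U) (hV : Adm x θ V)
    (hUV : ¬ Dep U V) : Pool.Agent.R356.JointR (val x θ U) (val x θ V) := by
  have hx0 := Pool.Agent.R105.PE.base_pos x hx
  rw [val_conv x θ hx0, val_conv x θ hx0]
  exact Pool.Agent.R105.PE.bjointS x (x ^ θ) hx0 (Real.rpow_pos_of_pos hx0 _)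
    (Pool.Agent.R105.PE.base_meas x hx) _ _ (adm_conv x θ hx0 U hU) (adm_conv x θ hx0 V hV)
    fun h => hUV (dep_conv U V h)

/-- **Sums of two powers.** See the text at the beginning of the file. -/
theorem result :
    (∀ x θ : ℝ, Base x → ∀ U V : Member, Adm x θ U → Adm x θ V → ¬ Dep U V →
      Joint (val x θ U) (val x θ V)) ∧
    (∀ x θ : ℝ, Base x → ∀ U V : Member, Adm x θ U → Adm x θ V →
      IsAlgebraic ℚ (val x θ U) → IsAlgebraic ℚ (val x θ V) → Dep U V) ∧
    (∀ x θ : ℝ, Base x → ∀ S : Finset Member, (∀ U ∈ S, Adm x θ U) →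
      (∀ U ∈ S, ∀ V ∈ S, U ≠ V → ¬ Dep U V) → ∀ D : ℕ, ∃ κ : ℝ, 0 < κ ∧
      ∀ w ρ : ℝ, 1 < ρ → ρ < w / κ → ∃ C : ℝ, ∀ X : ℝ, 3 ≤ X →
        (near x θ S D w X).Finite ∧
        ((near x θ S D w X).ncard : ℝ) ≤ Real.log (Real.log X) / Real.log ρ + C) := by
  refine ⟨fun x θ hx U V hU hV hUV => joint_of x θ hx U V hU hV hUV,
    fun x θ hx U V hU hV h1 h2 => ?_, fun x θ hx S hS hind D => ?_⟩
  · by_contra hcon
    exact Pool.Agent.R105.PE.not_both _ _ (joint_of x θ hx U V hU hV hcon) h1 h2
  · exact Pool.Agent.R356.sparse_joint S (val x θ)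
      (fun U hU V hV hne => joint_of x θ hx U V (hS U hU) (hS V hV) (hind U hU V hV hne)) D

end Pool.Agent.Results.MP_4c2ad3_nt.SumsOfTwoPowers
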